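import Pool.Agent.Q161.Insert

/-!
# Permutations avoiding 321 and the arrow pattern (12; 1 → 3)

`σ = θ⁻¹ π` maps an entry to the next one, unless that is a left-to-right maximum (or does not
exist), in which case it maps it to the largest entry so far. For a permutation that avoids 321 this
shows that the arrow pattern is contained iff 3142 is. The inverses, the permutations avoiding 321
and 2413, are counted by a recursion on the last two entries.
-/

set_option autoImplicit false

namespace Pool.Agent.Results.MP_1ce666_co.ArrowFibonacci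

open Finset Equiv Q161.Insert

/-- `m` is the largest element of the cycle of `x` -/
def IsCycMax {n : ℕ} (σ : Perm (Fin n)) (x m : Fin n) : Prop :=
  σ.SameCycle x m ∧ ∀ y, σ.SameCycle x y → y ≤ m

/-- `π = θ σ`: in the word of `π`, `σ x` comes directly after `x` unless it is the largest element
of its cycle, and a cycle with a smaller largest element comes before one with a larger one -/
def IsTheta {n : ℕ} (σ π : Perm (Fin n)) : Prop :=
  (∀ x, IsCycMax σ x (σ x) ∨ (π.symm (σ x) : ℕ) = π.symm x + 1) ∧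
  (∀ x y m m', IsCycMax σ x m → IsCycMax σ y m' → m < m' → π.symm x < π.symm y)

/-- `π` contains `321` -/
def C321 {n : ℕ} (π : Perm (Fin n)) : Prop := ∃ i j k, i < j ∧ j < k ∧ π k < π j ∧ π j < π i

/-- `π` contains the arrow pattern `(12; 1 → 3)` -/
def CArrow {n : ℕ} (π : Perm (Fin n)) : Prop :=
  ∃ σ : Perm (Fin n), IsTheta σ π ∧ ∃ x₁ x₂ x₃, x₁ < x₂ ∧ x₂ < x₃ ∧
    π.symm x₁ < π.symm x₂ ∧ σ x₁ = x₃

/-! ### the inverse of `θ` -/

section hat
variable {n : ℕ} (π : Perm (Fin n))

/-- left-to-right maxima -/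
def LR (i : Fin n) : Prop := ∀ j < i, π j < π i

/-- the largest entry up to `i` -/
noncomputable def top (i : Fin n) : Fin n := (Iic i).sup' ⟨i, mem_Iic.2 (le_refl i)⟩ π

/-- there is a next entry which is not a left-to-right maximum -/
def Nx (i : Fin n) : Prop := ∃ h : (i : ℕ) + 1 < n, ¬ LR π ⟨i + 1, h⟩

open Classical in
/-- `θ⁻¹ π` as a function -/
noncomputable def hat (x : Fin n) : Fin n :=
  if h : Nx π (π.symm x) then π ⟨(π.symm x : ℕ) + 1, h.1⟩ else top π (π.symm x)

variable {π}

theorem le_top {i j : Fin n} (h : j ≤ i) : π j ≤ top π i :=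
  le_sup' (f := π) (mem_Iic.2 h)

theorem exists_top (i : Fin n) : ∃ j ≤ i, π j = top π i := by
  obtain ⟨j, hj, h⟩ := exists_mem_eq_sup' (s := Iic i) ⟨i, mem_Iic.2 (le_refl i)⟩ π
  exact ⟨j, mem_Iic.1 hj, h.symm⟩

theorem top_mono {i j : Fin n} (h : i ≤ j) : top π i ≤ top π j := by
  obtain ⟨k, hk, e⟩ := exists_top (π := π) i
  rw [← e]
  exact le_top (hk.trans h)

theorem top_eq {i j : Fin n} (h : j ≤ i) (h' : ∀ k ≤ i, π k ≤ π j) : top π i = π j := by
  apply le_antisymm _ (le_top h)
  obtain ⟨k, hk, e⟩ := exists_top (π := π) i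
  rw [← e]
  exact h' k hk

theorem LR_of_top {i j : Fin n} (h : j ≤ i) (h' : π j = top π i) : LR π j := by
  intro k hk
  refine lt_of_le_of_ne ?_ (fun he => hk.ne (π.injective he))
  rw [h']
  exact le_top (hk.le.trans h)

theorem top_of_LR {i : Fin n} (h : LR π i) : top π i = π i := by
  apply top_eq (le_refl i)
  intro k hk
  rcases hk.lt_or_eq with h1 | h1
  · exact (h k h1).le
  · rw [h1]

theorem top_succ {i : Fin n} (h : (i : ℕ) + 1 < n) (h' : ¬ LR π ⟨i + 1, h⟩) :
    top π ⟨i + 1, h⟩ = top π i := by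
  obtain ⟨j, hj, e⟩ := exists_top (π := π) (⟨i + 1, h⟩ : Fin n)
  have hji : j ≤ i := by
    by_contra hc
    have : j = ⟨i + 1, h⟩ := by
      apply le_antisymm hj
      rw [Fin.le_def]; simp only; rw [Fin.le_def] at hc; omega
    exact h' (this ▸ LR_of_top hj e)
  rw [← e]
  symm
  apply top_eq hji
  intro k hk
  rw [e]
  apply le_top
  rw [Fin.le_def] at hk ⊢
  simp only; omega

theorem hat_pos {x : Fin n} (h : Nx π (π.symm x)) :
    hat π x = π ⟨(π.symm x : ℕ) + 1, h.1⟩ := by
  unfold hat; rw [dif_pos h]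

theorem hat_neg {x : Fin n} (h : ¬ Nx π (π.symm x)) : hat π x = top π (π.symm x) := by
  unfold hat; rw [dif_neg h]

theorem hat_injective : Function.Injective (hat π) := by
  have key : ∀ x y, Nx π (π.symm x) → ¬ Nx π (π.symm y) → hat π x ≠ hat π y := by
    intro x y hx hy he
    rw [hat_pos hx, hat_neg hy] at he
    obtain ⟨j, hj, e⟩ := exists_top (π := π) (π.symm y)
    rw [← e] at he
    have h1 := π.injective he
    have h2 := LR_of_top hj e
    rw [← h1] at h2
    exact hx.2 h2
  intro x y he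
  by_cases hx : Nx π (π.symm x) <;> by_cases hy : Nx π (π.symm y)
  · rw [hat_pos hx, hat_pos hy] at he
    have h1 := π.injective he
    rw [Fin.mk.injEq] at h1
    exact π.symm.injective (Fin.ext (by omega))
  · exact absurd he (key x y hx hy)
  · exact absurd he.symm (key y x hy hx)
  · rw [hat_neg hx, hat_neg hy] at he
    have key2 : ∀ i j : Fin n, i < j → ¬ Nx π i → top π i ≠ top π j := by
      intro i j hij hi he
      have hi1 : (i : ℕ) + 1 < n := by
        have := j.2
        rw [Fin.lt_def] at hij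
        omega
      have hLR : LR π ⟨i + 1, hi1⟩ := by
        by_contra hc
        exact hi ⟨hi1, hc⟩
      obtain ⟨k, hk, e⟩ := exists_top (π := π) i
      have h1 := hLR k (by rw [Fin.lt_def]; rw [Fin.le_def] at hk; simp only; omega)
      have h2 : π ⟨i + 1, hi1⟩ ≤ top π j := le_top (by
        rw [Fin.lt_def] at hij
        rw [Fin.le_def]; simp only; omega)
      rw [e, he] at h1
      exact absurd (h1.trans_le h2) (lt_irrefl _)
    rcases lt_trichotomy (π.symm x) (π.symm y) with h | h | h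
    · exact absurd he (key2 _ _ h hx)
    · exact π.symm.injective h
    · exact absurd he.symm (key2 _ _ h hy)

/-- the permutation `θ⁻¹ π` -/
noncomputable def hatPerm (π : Perm (Fin n)) : Perm (Fin n) :=
  Equiv.ofBijective (hat π) (Finite.injective_iff_bijective.1 hat_injective)

theorem hatPerm_apply (x : Fin n) : hatPerm π x = hat π x := rfl

theorem top_hat (x : Fin n) : top π (π.symm (hat π x)) = top π (π.symm x) := by
  by_cases hx : Nx π (π.symm x)
  · rw [hat_pos hx, Equiv.symm_apply_apply]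
    exact top_succ hx.1 hx.2
  · rw [hat_neg hx]
    obtain ⟨j, hj, e⟩ := exists_top (π := π) (π.symm x)
    rw [← e, Equiv.symm_apply_apply]
    exact top_of_LR (LR_of_top hj e)

theorem top_sameCycle {x y : Fin n} (h : (hatPerm π).SameCycle x y) :
    top π (π.symm x) = top π (π.symm y) := by
  have h1 : ∀ x, top π (π.symm (hatPerm π x)) = top π (π.symm x) := top_hat
  have h2 : ∀ x, top π (π.symm ((hatPerm π)⁻¹ x)) = top π (π.symm x) := by
    intro x
    rw [← h1 ((hatPerm π)⁻¹ x)]
    simp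
  obtain ⟨i, rfl⟩ := h
  induction i with
  | zero => simp
  | succ i ih =>
    rw [ih, add_comm, zpow_add, zpow_one, Perm.mul_apply, h1]
  | pred i ih =>
    rw [ih, sub_eq_add_neg, add_comm, zpow_add, zpow_neg_one, Perm.mul_apply, h2]

theorem sameCycle_top (x : Fin n) : (hatPerm π).SameCycle x (top π (π.symm x)) := by
  have key : ∀ d, ∀ x, n - (π.symm x : ℕ) = d →
      (hatPerm π).SameCycle x (top π (π.symm x)) := by
    intro d
    induction d using Nat.strong_induction_on with
    | _ d ih =>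
      intro x hd
      have hstep : (hatPerm π).SameCycle x (hatPerm π x) := ⟨1, by simp⟩
      by_cases hx : Nx π (π.symm x)
      · have h1 := hat_pos hx
        have h2 : (π.symm (hatPerm π x) : ℕ) = π.symm x + 1 := by
          rw [hatPerm_apply, h1, Equiv.symm_apply_apply]
        have h3 := hx.1
        have h4 := ih _ (by omega) (hatPerm π x) rfl
        rw [hatPerm_apply, top_hat] at h4
        exact hstep.trans h4
      · rw [hatPerm_apply, hat_neg hx] at hstep
        exact hstep
  exact key _ x rfl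

theorem isCycMax_iff {x m : Fin n} : IsCycMax (hatPerm π) x m ↔ m = top π (π.symm x) := by
  have hle : ∀ y, (hatPerm π).SameCycle x y → y ≤ top π (π.symm x) := by
    intro y hy
    rw [top_sameCycle hy]
    have := le_top (π := π) (le_refl (π.symm y))
    rwa [Equiv.apply_symm_apply] at this
  constructor
  · rintro ⟨h1, h2⟩
    exact le_antisymm (hle m h1) (h2 _ (sameCycle_top x))
  · rintro rfl
    exact ⟨sameCycle_top x, hle⟩

theorem isTheta_hat : IsTheta (hatPerm π) π := by
  constructor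
  · intro x
    by_cases hx : Nx π (π.symm x)
    · right
      rw [hatPerm_apply, hat_pos hx, Equiv.symm_apply_apply]
    · left
      rw [isCycMax_iff, hatPerm_apply, hat_neg hx]
  · intro x y m m' hm hm' hlt
    rw [isCycMax_iff] at hm hm'
    by_contra hc
    push Not at hc
    have := top_mono (π := π) hc
    rw [← hm, ← hm'] at this
    exact absurd (hlt.trans_le this) (lt_irrefl _)

/-- `θ` is injective -/
theorem eq_hat {σ : Perm (Fin n)} (h : IsTheta σ π) (x : Fin n) : σ x = hat π x := by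
  -- every cycle has a largest element
  have hex : ∀ x, ∃ m, IsCycMax σ x m := by
    intro x
    classical
    obtain ⟨m, hm, hmax⟩ := exists_max_image (univ.filter (fun y => σ.SameCycle x y)) id
      ⟨x, by rw [mem_filter]; exact ⟨mem_univ _, Perm.SameCycle.refl _ _⟩⟩
    rw [mem_filter] at hm
    refine ⟨m, hm.2, fun y hy => hmax y ?_⟩
    rw [mem_filter]
    exact ⟨mem_univ _, hy⟩
  have huniq : ∀ {x m m'}, IsCycMax σ x m → IsCycMax σ x m' → m = m' := by
    intro x m m' h1 h2
    exact le_antisymm (h2.2 _ h1.1) (h1.2 _ h2.1)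
  have htrans : ∀ {x y m}, IsCycMax σ x m → σ.SameCycle x y → IsCycMax σ y m := by
    intro x y m h1 h2
    exact ⟨h2.symm.trans h1.1, fun z hz => h1.2 z (h2.trans hz)⟩
  -- the largest element comes first
  have hfirst : ∀ {x m}, IsCycMax σ x m → π.symm m ≤ π.symm x := by
    intro x m hm
    obtain ⟨k, hk⟩ : ∃ k : ℕ, (σ ^ k) m = x := by
      obtain ⟨k, _, _, hk⟩ := hm.1.symm.exists_pow_eq'' 
      exact ⟨k, hk⟩
    have key : ∀ k : ℕ, π.symm m ≤ π.symm ((σ ^ k) m) := by
      intro k
      induction k with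
      | zero => simp
      | succ k ih =>
        rw [pow_succ', Perm.mul_apply]
        rcases h.1 ((σ ^ k) m) with h1 | h1
        · have h2 : IsCycMax σ ((σ ^ k) m) m := by
            apply htrans hm
            exact hm.1.trans ⟨k, by simp⟩
          rw [huniq h1 h2]
        · rw [Fin.le_def] at ih ⊢
          omega
    rw [← hk]
    exact key k
  obtain ⟨m, hm⟩ := hex x
  have hself : σ.SameCycle x (σ x) := ⟨1, by simp⟩
  rcases h.1 x with h1 | h1
  · -- `σ x = m`
    have hσ : σ x = m := huniq h1 hm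
    have hNx : ¬ Nx π (π.symm x) := by
      rintro ⟨h2, h3⟩
      apply h3
      set y := π ⟨(π.symm x : ℕ) + 1, h2⟩ with hy
      have hpy : π.symm y = ⟨(π.symm x : ℕ) + 1, h2⟩ := by rw [hy, Equiv.symm_apply_apply]
      obtain ⟨my, hmy⟩ := hex y
      have hymy : y = my := by
        obtain ⟨x', hx'⟩ := σ.surjective y
        rcases h.1 x' with h4 | h4
        · rw [hx'] at h4
          exact huniq (htrans h4 h4.1) hmy
        · rw [hx', hpy] at h4
          simp only at h4
          have h5 : x' = x := π.symm.injective (Fin.ext (by omega))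
          rw [h5] at hx'
          rw [hx'] at h1
          exact huniq (htrans h1 h1.1) hmy
      intro j hj
      have hj' : π.symm (π j) < π.symm y := by rw [Equiv.symm_apply_apply, hpy]; exact hj
      obtain ⟨mz, hmz⟩ := hex (π j)
      have hle : π j ≤ mz := hmz.2 _ (Perm.SameCycle.refl _ _)
      rcases lt_trichotomy mz my with h5 | h5 | h5
      · have := lt_of_le_of_lt hle h5
        rw [← hymy] at this
        exact this
      · exfalso
        rw [h5, ← hymy] at hmz
        have := hfirst hmz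
        exact absurd (lt_of_lt_of_le hj' this) (lt_irrefl _)
      · exfalso
        have := h.2 y (π j) my mz hmy hmz h5
        exact absurd (hj'.trans this) (lt_irrefl _)
    rw [hat_neg hNx, hσ]
    symm
    have e : m = π (π.symm m) := (Equiv.apply_symm_apply _ _).symm
    rw [e]
    apply top_eq (hfirst hm)
    intro k hk
    rw [← e]
    obtain ⟨mz, hmz⟩ := hex (π k)
    have hle : π k ≤ mz := hmz.2 _ (Perm.SameCycle.refl _ _)
    apply hle.trans
    by_contra hc
    push Not at hc
    have := h.2 x (π k) m mz hm hmz hc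
    rw [Equiv.symm_apply_apply] at this
    exact absurd (lt_of_le_of_lt hk this) (lt_irrefl _)
  · by_cases hc : IsCycMax σ x (σ x)
    · -- the position of the largest element is not after `x`
      exfalso
      have := hfirst hc
      rw [Fin.le_def] at this
      omega
    · have h2 : (π.symm x : ℕ) + 1 < n := by rw [← h1]; exact (π.symm (σ x)).2
      have h3 : σ x = π ⟨(π.symm x : ℕ) + 1, h2⟩ := by
        rw [← Equiv.symm_apply_eq]
        exact Fin.ext h1
      have hNx : Nx π (π.symm x) := by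
        refine ⟨h2, ?_⟩
        intro hLR
        have h4 : π.symm m < ⟨(π.symm x : ℕ) + 1, h2⟩ := by
          have := hfirst hm
          rw [Fin.le_def] at this
          rw [Fin.lt_def]; simp only; omega
        have h5 := hLR _ h4
        rw [Equiv.apply_symm_apply, ← h3] at h5
        have h6 := hm.2 _ hself
        exact absurd (lt_of_lt_of_le h5 h6) (lt_irrefl _)
      rw [hat_pos hNx]
      exact h3

theorem cArrow_iff : CArrow π ↔ ∃ x₁ x₂, x₁ < x₂ ∧ x₂ < hat π x₁ ∧ π.symm x₁ < π.symm x₂ := by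
  constructor
  · rintro ⟨σ, hσ, x₁, x₂, x₃, h1, h2, h3, h4⟩
    refine ⟨x₁, x₂, h1, ?_, h3⟩
    rw [← eq_hat hσ, h4]
    exact h2
  · rintro ⟨x₁, x₂, h1, h2, h3⟩
    exact ⟨hatPerm π, isTheta_hat, x₁, x₂, hat π x₁, h1, h2, h3, rfl⟩

/-- `π` contains `3142` -/
def C3142 (π : Perm (Fin n)) : Prop :=
  ∃ i j k l, i < j ∧ j < k ∧ k < l ∧ π j < π l ∧ π l < π i ∧ π i < π k

theorem arrow_iff (h : ¬ C321 π) : CArrow π ↔ C3142 π := by
  rw [cArrow_iff]
  constructor
  · rintro ⟨x₁, x₂, h1, h2, h3⟩
    set i := π.symm x₁ with hi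
    set t := π.symm x₂ with ht
    have e1 : π i = x₁ := by rw [hi, Equiv.apply_symm_apply]
    have e2 : π t = x₂ := by rw [ht, Equiv.apply_symm_apply]
    by_cases hx : Nx π i
    · exfalso
      have e3 : hat π x₁ = π ⟨(i : ℕ) + 1, hx.1⟩ := hat_pos hx
      rw [e3] at h2
      have h4 := hx.2
      unfold LR at h4
      push Not at h4
      obtain ⟨p, hp, h5⟩ := h4
      apply h
      refine ⟨p, ⟨(i : ℕ) + 1, hx.1⟩, t, hp, ?_, ?_, ?_⟩
      · rw [Fin.lt_def] at h3 ⊢
        refine lt_of_le_of_ne (by simp only; omega) (fun he => ?_)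
        have : t = ⟨(i : ℕ) + 1, hx.1⟩ := Fin.ext he.symm
        rw [← this, e2] at h2
        exact lt_irrefl _ h2
      · rw [e2]; exact h2
      · exact lt_of_le_of_ne h5 (fun he => by
          have := π.injective he
          rw [← this] at hp
          exact lt_irrefl _ hp)
    · have e3 : hat π x₁ = top π i := hat_neg hx
      rw [e3] at h2
      obtain ⟨p, hp, e4⟩ := exists_top (π := π) i
      have hit : (i : ℕ) + 1 < n := by
        have := t.2
        rw [Fin.lt_def] at h3
        omega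
      have hLR : LR π ⟨i + 1, hit⟩ := by
        by_contra hc
        exact hx ⟨hit, hc⟩
      have hpi : p < i := lt_of_le_of_ne hp (fun he => by
        rw [he, e1] at e4
        rw [← e4] at h2
        exact absurd (h1.trans h2) (lt_irrefl _))
      have h5 : π p < π ⟨i + 1, hit⟩ := hLR p (by
        rw [Fin.lt_def] at hpi ⊢; simp only; omega)
      refine ⟨p, i, ⟨i + 1, hit⟩, t, hpi, ?_, ?_, ?_, ?_, h5⟩
      · rw [Fin.lt_def]; simp only; omega
      · rw [Fin.lt_def] at h3 ⊢
        refine lt_of_le_of_ne (by simp only; omega) (fun he => ?_)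
        have : t = ⟨(i : ℕ) + 1, hit⟩ := Fin.ext he.symm
        rw [← this, e2, e4] at h5
        exact absurd (h2.trans h5) (lt_irrefl _)
      · rw [e1, e2]; exact h1
      · rw [e2, e4]; exact h2
  · rintro ⟨p, q, r, t, h1, h2, h3, h4, h5, h6⟩
    obtain ⟨m, hm, em⟩ := exists_top (π := π) q
    -- `π r` is larger than everything up to `q`
    have h7 : top π q < π r := by
      by_contra hc
      push Not at hc
      have hne : π r ≠ top π q := by
        rw [← em]
        intro he
        have := π.injective he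
        rw [← this] at hm
        exact absurd (lt_of_lt_of_le h2 hm) (lt_irrefl _)
      apply h
      refine ⟨m, r, t, lt_of_le_of_lt hm h2, h3, h5.trans h6, ?_⟩
      rw [em]
      exact lt_of_le_of_ne hc hne
    -- the first position after `q` with a larger entry
    classical
    have hex : ∃ s : ℕ, ∃ hs : s < n, (q : ℕ) < s ∧ top π q < π ⟨s, hs⟩ :=
      ⟨r, r.2, h2, h7⟩
    obtain ⟨s, ⟨hs, hs1, hs2⟩, hmin⟩ : ∃ s : ℕ, (∃ hs : s < n, (q : ℕ) < s ∧ top π q < π ⟨s, hs⟩) ∧
        ∀ s' < s, ¬ ∃ hs : s' < n, (q : ℕ) < s' ∧ top π q < π ⟨s', hs⟩ :=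
      ⟨Nat.find hex, Nat.find_spec hex, fun s' hs' => Nat.find_min hex hs'⟩
    have hsr : s ≤ r := by
      by_contra hc
      exact hmin r (by omega) ⟨r.2, h2, h7⟩
    have htop : ∀ k : Fin n, (k : ℕ) < s → π k ≤ top π q := by
      intro k hk
      by_contra hc
      push Not at hc
      rcases le_or_gt k q with h8 | h8
      · exact absurd (lt_of_lt_of_le hc (le_top h8)) (lt_irrefl _)
      · exact hmin k hk ⟨k.2, h8, hc⟩
    have hi2 : s - 1 < n := by omega
    set i : Fin n := ⟨s - 1, hi2⟩ with hi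
    have hiv : (i : ℕ) = s - 1 := rfl
    have htopi : top π i = top π q := by
      rw [← em]
      apply top_eq
      · rw [Fin.le_def] at hm ⊢; omega
      · intro k hk
        rw [em]
        apply htop
        rw [Fin.le_def] at hk
        omega
    have hNx : ¬ Nx π i := by
      rintro ⟨h8, h9⟩
      apply h9
      intro k hk
      rw [Fin.lt_def] at hk
      simp only at hk
      have e : (⟨(i : ℕ) + 1, h8⟩ : Fin n) = ⟨s, hs⟩ := Fin.ext (by simp only; omega)
      rw [e]
      exact lt_of_le_of_lt (htop k (by omega)) hs2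
    have hit : i < t := by
      rw [Fin.lt_def] at h3 ⊢
      omega
    have hqi : q ≤ i := by rw [Fin.le_def]; omega
    refine ⟨π i, π t, ?_, ?_, ?_⟩
    · by_contra hc
      push Not at hc
      have hne : π t ≠ π i := fun he => by
        rw [π.injective he] at hit
        exact lt_irrefl _ hit
      have hlt := lt_of_le_of_ne hc hne
      by_cases hmi : m = i
      · -- then `q = i = m`
        have hqm : q = m := le_antisymm (hmi ▸ hqi) hm
        have : π p ≤ π q := by
          rw [hqm, em]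
          exact le_top h1.le
        exact absurd (lt_of_lt_of_le (h4.trans h5) this) (lt_irrefl _)
      · apply h
        have hmlt : m < i := lt_of_le_of_ne (hm.trans hqi) hmi
        refine ⟨m, i, t, hmlt, hit, hlt, ?_⟩
        refine lt_of_le_of_ne ?_ (fun he => hmlt.ne' (π.injective he))
        rw [em]
        exact htop i (by omega)
    · have e : hat π (π i) = top π i := by
        rw [hat_neg (by rwa [Equiv.symm_apply_apply]), Equiv.symm_apply_apply]
      rw [e, htopi]
      exact lt_of_lt_of_le h5 (le_top h1.le)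
    · rw [Equiv.symm_apply_apply, Equiv.symm_apply_apply]
      exact hit

end hat

/-! ### counting the inverses -/

/-- `ρ` contains `2413` -/
def C2413 {n : ℕ} (ρ : Perm (Fin n)) : Prop :=
  ∃ i j k l, i < j ∧ j < k ∧ k < l ∧ ρ k < ρ i ∧ ρ i < ρ l ∧ ρ l < ρ j

/-- `ρ` avoids `321` and `2413` -/
def Good {n : ℕ} (ρ : Perm (Fin n)) : Prop := ¬ C321 ρ ∧ ¬ C2413 ρ

theorem good_iff {n : ℕ} (π : Perm (Fin n)) : (¬ C321 π ∧ ¬ CArrow π) ↔ Good π⁻¹ := by
  have h1 : C321 π ↔ C321 π⁻¹ := by
    constructor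
    · rintro ⟨i, j, k, h1, h2, h3, h4⟩
      exact ⟨π k, π j, π i, h3, h4, by simpa using h1, by simpa using h2⟩
    · rintro ⟨i, j, k, h1, h2, h3, h4⟩
      exact ⟨π⁻¹ k, π⁻¹ j, π⁻¹ i, h3, h4, by simpa using h1, by simpa using h2⟩
  have h2 : C3142 π ↔ C2413 π⁻¹ := by
    constructor
    · rintro ⟨i, j, k, l, h1, h2, h3, h4, h5, h6⟩
      exact ⟨π j, π l, π i, π k, h4, h5, h6, by simpa using h1, by simpa using h2,
        by simpa using h3⟩
    · rintro ⟨i, j, k, l, h1, h2, h3, h4, h5, h6⟩
      refine ⟨π⁻¹ k, π⁻¹ i, π⁻¹ l, π⁻¹ j, h4, h5, h6, ?_, ?_, ?_⟩ <;> simpa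
  unfold Good
  rw [← h1, ← h2]
  constructor
  · rintro ⟨h3, h4⟩
    exact ⟨h3, fun h => h4 ((arrow_iff h3).2 h)⟩
  · rintro ⟨h3, h4⟩
    exact ⟨h3, fun h => h4 ((arrow_iff h3).1 h)⟩

/-- an occurrence in `τ` gives one in `σ` -/
theorem Good.of_emb {m n : ℕ} {τ : Perm (Fin m)} {σ : Perm (Fin n)} (f : Fin m → Fin n)
    (hf : ∀ i j, i < j → f i < f j) (hv : ∀ i j, τ i < τ j → σ (f i) < σ (f j)) (h : Good σ) :
    Good τ := by
  constructor
  · rintro ⟨i, j, k, h1, h2, h3, h4⟩
    exact h.1 ⟨f i, f j, f k, hf _ _ h1, hf _ _ h2, hv _ _ h3, hv _ _ h4⟩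
  · rintro ⟨i, j, k, l, h1, h2, h3, h4, h5, h6⟩
    exact h.2 ⟨f i, f j, f k, f l, hf _ _ h1, hf _ _ h2, hf _ _ h3, hv _ _ h4, hv _ _ h5, hv _ _ h6⟩

theorem ins_lt {n : ℕ} (x : Fin (n + 1)) (τ : Perm (Fin n)) (i j : Fin n) :
    ins x τ i.castSucc < ins x τ j.castSucc ↔ τ i < τ j := by
  rw [ins_castSucc, ins_castSucc, Fin.succAbove_lt_succAbove_iff]

theorem Good.of_ins {n : ℕ} {x : Fin (n + 1)} {τ : Perm (Fin n)} (h : Good (ins x τ)) : Good τ :=
  h.of_emb Fin.castSucc (fun _ _ h => h) (fun i j h => (ins_lt x τ i j).2 h)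

theorem castSucc_or_last {n : ℕ} (i : Fin (n + 1)) :
    (∃ j : Fin n, i = j.castSucc) ∨ i = Fin.last n := by
  rcases Fin.eq_castSucc_or_eq_last i with ⟨j, h⟩ | h
  · exact Or.inl ⟨j, h⟩
  · exact Or.inr h

theorem good_ins_last {n : ℕ} (τ : Perm (Fin n)) : Good (ins (Fin.last n) τ) ↔ Good τ := by
  refine ⟨Good.of_ins, fun h => ⟨?_, ?_⟩⟩
  · rintro ⟨i, j, k, h1, h2, h3, h4⟩
    rcases castSucc_or_last k with ⟨k', rfl⟩ | rfl
    · obtain ⟨j', rfl⟩ : ∃ j' : Fin n, j = j'.castSucc := by
        rcases castSucc_or_last j with h | rfl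
        · exact h
        · exact absurd (Fin.le_last k'.castSucc) (not_le.2 h2)
      obtain ⟨i', rfl⟩ : ∃ i' : Fin n, i = i'.castSucc := by
        rcases castSucc_or_last i with h | rfl
        · exact h
        · exact absurd (Fin.le_last j'.castSucc) (not_le.2 h1)
      exact h.1 ⟨i', j', k', h1, h2, (ins_lt _ _ _ _).1 h3, (ins_lt _ _ _ _).1 h4⟩
    · rw [ins_last] at h3
      exact absurd (Fin.le_last _) (not_le.2 h3)
  · rintro ⟨i, j, k, l, h1, h2, h3, h4, h5, h6⟩
    rcases castSucc_or_last l with ⟨l', rfl⟩ | rfl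
    · obtain ⟨k', rfl⟩ : ∃ k' : Fin n, k = k'.castSucc := by
        rcases castSucc_or_last k with h | rfl
        · exact h
        · exact absurd (Fin.le_last l'.castSucc) (not_le.2 h3)
      obtain ⟨j', rfl⟩ : ∃ j' : Fin n, j = j'.castSucc := by
        rcases castSucc_or_last j with h | rfl
        · exact h
        · exact absurd (Fin.le_last k'.castSucc) (not_le.2 h2)
      obtain ⟨i', rfl⟩ : ∃ i' : Fin n, i = i'.castSucc := by
        rcases castSucc_or_last i with h | rfl
        · exact h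
        · exact absurd (Fin.le_last j'.castSucc) (not_le.2 h1)
      exact h.2 ⟨i', j', k', l', h1, h2, h3, (ins_lt _ _ _ _).1 h4, (ins_lt _ _ _ _).1 h5,
        (ins_lt _ _ _ _).1 h6⟩
    · rw [ins_last] at h6
      exact absurd (Fin.le_last _) (not_le.2 h6)

/-- the values of `ins x (ins last τ)` and `ins x' τ` -/
theorem swap_val {n : ℕ} (x : Fin (n + 1)) (τ : Perm (Fin n)) :
    (∀ i : Fin n, (ins x.castSucc (ins (Fin.last n) τ) i.castSucc.castSucc : ℕ) =
      ins x τ i.castSucc) ∧
    (ins x.castSucc (ins (Fin.last n) τ) (Fin.last n).castSucc : ℕ) = n + 1 ∧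
    (ins x.castSucc (ins (Fin.last n) τ) (Fin.last (n + 1)) : ℕ) = x := by
  refine ⟨fun i => ?_, ?_, ?_⟩
  · have h1 := ins_val_lt x.castSucc (ins (Fin.last n) τ) i (by omega)
    have h2 := ins_val_lt (Fin.last n) τ i i.2
    have h3 := ins_val_lt x τ i i.2
    have e1 : (⟨(i : ℕ), by omega⟩ : Fin (n + 1 + 1)) = i.castSucc.castSucc := rfl
    have e2 : (⟨(i : ℕ), by omega⟩ : Fin (n + 1)) = i.castSucc := rfl
    have e3 : (⟨(i : ℕ), i.2⟩ : Fin n) = i := rfl
    rw [e1] at h1
    rw [e2, e3] at h2 h3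
    rw [h1, h3]
    have e4 : (⟨(i : ℕ), by omega⟩ : Fin (n + 1)) = i.castSucc := rfl
    rw [e4, h2]
    have h4 : ((τ i : Fin n) : ℕ) < (Fin.last n : Fin (n + 1)) := by
      rw [Fin.val_last]; exact (τ i).2
    rw [if_pos h4]
    rfl
  · have h1 := ins_val_lt x.castSucc (ins (Fin.last n) τ) n (by omega)
    have e1 : (⟨n, by omega⟩ : Fin (n + 1 + 1)) = (Fin.last n).castSucc := rfl
    have e2 : (⟨n, by omega⟩ : Fin (n + 1)) = Fin.last n := rfl
    rw [e1, e2, ins_last, if_neg] at h1
    · rw [h1]; simp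
    · have := x.2
      simp only [Fin.val_last, Fin.val_castSucc]; omega
  · rw [ins_last]; rfl

theorem good_swap {n : ℕ} (x : Fin (n + 1)) (τ : Perm (Fin n)) :
    Good (ins x.castSucc (ins (Fin.last n) τ)) ↔ Good (ins x τ) := by
  obtain ⟨v1, v2, v3⟩ := swap_val x τ
  set σ := ins x.castSucc (ins (Fin.last n) τ) with hσ
  -- the embedding that skips the position `n`
  let f : Fin (n + 1) → Fin (n + 1 + 1) := fun i => (Fin.last n).castSucc.succAbove i
  have hf : ∀ i j, i < j ↔ f i < f j := fun i j => (Fin.succAbove_lt_succAbove_iff).symm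
  have hv : ∀ i, (σ (f i) : ℕ) = ins x τ i := by
    intro i
    rcases castSucc_or_last i with ⟨j, rfl⟩ | rfl
    · have : f j.castSucc = j.castSucc.castSucc := by
        apply Fin.succAbove_of_castSucc_lt
        rw [Fin.lt_def]; simp
      rw [this, v1]
    · have : f (Fin.last n) = Fin.last (n + 1) := by
        have : f (Fin.last n) = (Fin.last n).succ := Fin.succAbove_of_le_castSucc _ _ (le_refl _)
        rw [this, Fin.succ_last]
      rw [this, v3, ins_last]
  have hvlt : ∀ i j, σ (f i) < σ (f j) ↔ ins x τ i < ins x τ j := by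
    intro i j; rw [Fin.lt_def, hv, hv, Fin.lt_def]
  have hsurj : ∀ i, i ≠ (Fin.last n).castSucc → ∃ j, f j = i := fun i hi =>
    Fin.exists_succAbove_eq hi
  have hmax : ∀ i, σ i ≤ σ (Fin.last n).castSucc := by
    intro i
    rw [Fin.le_def, v2]
    have := (σ i).2
    omega
  refine ⟨fun h => h.of_emb f (fun i j => (hf i j).1) (fun i j => (hvlt i j).2), fun h => ⟨?_, ?_⟩⟩
  · rintro ⟨i, j, k, h1, h2, h3, h4⟩
    have hj : j ≠ (Fin.last n).castSucc := by
      rintro rfl; exact absurd (hmax i) (not_le.2 h4)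
    have hk : k ≠ (Fin.last n).castSucc := by
      rintro rfl; exact absurd (hmax j) (not_le.2 h3)
    by_cases hi : i = (Fin.last n).castSucc
    · -- there is only one position after `n`
      rw [hi, Fin.lt_def] at h1
      rw [Fin.lt_def] at h2
      have := k.2
      simp only [Fin.val_castSucc, Fin.val_last] at h1
      omega
    · obtain ⟨i', rfl⟩ := hsurj i hi
      obtain ⟨j', rfl⟩ := hsurj j hj
      obtain ⟨k', rfl⟩ := hsurj k hk
      exact h.1 ⟨i', j', k', (hf _ _).2 h1, (hf _ _).2 h2, (hvlt _ _).1 h3, (hvlt _ _).1 h4⟩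
  · rintro ⟨i, j, k, l, h1, h2, h3, h4, h5, h6⟩
    have hi : i ≠ (Fin.last n).castSucc := by
      rintro rfl; exact absurd (hmax l) (not_le.2 h5)
    have hk : k ≠ (Fin.last n).castSucc := by
      rintro rfl; exact absurd (hmax i) (not_le.2 h4)
    have hl : l ≠ (Fin.last n).castSucc := by
      rintro rfl; exact absurd (hmax j) (not_le.2 h6)
    by_cases hj : j = (Fin.last n).castSucc
    · rw [hj, Fin.lt_def] at h2
      rw [Fin.lt_def] at h3
      have := l.2
      simp only [Fin.val_castSucc, Fin.val_last] at h2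
      omega
    · obtain ⟨i', rfl⟩ := hsurj i hi
      obtain ⟨j', rfl⟩ := hsurj j hj
      obtain ⟨k', rfl⟩ := hsurj k hk
      obtain ⟨l', rfl⟩ := hsurj l hl
      exact h.2 ⟨i', j', k', l', (hf _ _).2 h1, (hf _ _).2 h2, (hf _ _).2 h3,
        (hvlt _ _).1 h4, (hvlt _ _).1 h5, (hvlt _ _).1 h6⟩

/-- the values of `ins (ρ last + 1) ρ` -/
theorem succ_val {n : ℕ} (ρ : Perm (Fin (n + 1))) :
    (ins (ρ (Fin.last n)).succ ρ (Fin.last n).castSucc : ℕ) = ρ (Fin.last n) ∧
    (ins (ρ (Fin.last n)).succ ρ (Fin.last (n + 1)) : ℕ) = ρ (Fin.last n) + 1 := by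
  constructor
  · have h1 := ins_val_lt (ρ (Fin.last n)).succ ρ n (by omega)
    have e1 : (⟨n, by omega⟩ : Fin (n + 1 + 1)) = (Fin.last n).castSucc := rfl
    have e2 : (⟨n, by omega⟩ : Fin (n + 1)) = Fin.last n := rfl
    rw [e1, e2, if_pos (by simp)] at h1
    exact h1
  · rw [ins_last]; simp

theorem good_succ {n : ℕ} (ρ : Perm (Fin (n + 1))) :
    Good (ins (ρ (Fin.last n)).succ ρ) ↔ Good ρ := by
  refine ⟨Good.of_ins, fun h => ?_⟩
  obtain ⟨v1, v2⟩ := succ_val ρ
  set σ := ins (ρ (Fin.last n)).succ ρ with hσ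
  have hlt : ∀ i j : Fin (n + 1), σ i.castSucc < σ j.castSucc → ρ i < ρ j :=
    fun i j h => (ins_lt _ _ _ _).1 h
  have hcast : ∀ i : Fin (n + 1 + 1), i < Fin.last (n + 1) → ∃ i' : Fin (n + 1), i = i'.castSucc := by
    intro i hi
    rcases castSucc_or_last i with h | rfl
    · exact h
    · exact absurd hi (lt_irrefl _)
  -- comparisons with the last two values
  have hup : ∀ i : Fin (n + 1 + 1), σ (Fin.last (n + 1)) < σ i → σ (Fin.last n).castSucc < σ i := by
    intro i hi
    rw [Fin.lt_def] at hi ⊢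
    omega
  have hdown : ∀ i : Fin (n + 1 + 1), i ≠ (Fin.last n).castSucc → σ i < σ (Fin.last (n + 1)) →
      σ i < σ (Fin.last n).castSucc := by
    intro i hi hlt
    refine lt_of_le_of_ne ?_ (fun he => hi (σ.injective he))
    rw [Fin.lt_def] at hlt
    rw [Fin.le_def]
    omega
  constructor
  · rintro ⟨i, j, k, h1, h2, h3, h4⟩
    obtain ⟨j', rfl⟩ := hcast j (lt_of_lt_of_le h2 (Fin.le_last k))
    obtain ⟨i', rfl⟩ := hcast i (lt_of_lt_of_le (h1.trans h2) (Fin.le_last k))
    rcases castSucc_or_last k with ⟨k', rfl⟩ | rfl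
    · exact h.1 ⟨i', j', k', h1, h2, hlt _ _ h3, hlt _ _ h4⟩
    · have h5 := hup _ h3
      have h6 : j' < Fin.last n := by
        refine lt_of_le_of_ne (Fin.le_last _) (fun he => ?_)
        rw [he] at h5
        exact lt_irrefl _ h5
      exact h.1 ⟨i', j', Fin.last n, h1, h6, hlt _ _ h5, hlt _ _ h4⟩
  · rintro ⟨i, j, k, l, h1, h2, h3, h4, h5, h6⟩
    obtain ⟨k', rfl⟩ := hcast k (lt_of_lt_of_le h3 (Fin.le_last l))
    obtain ⟨j', rfl⟩ := hcast j (lt_of_lt_of_le (h2.trans h3) (Fin.le_last l))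
    obtain ⟨i', rfl⟩ := hcast i (lt_of_lt_of_le (h1.trans (h2.trans h3)) (Fin.le_last l))
    rcases castSucc_or_last l with ⟨l', rfl⟩ | rfl
    · exact h.2 ⟨i', j', k', l', h1, h2, h3, hlt _ _ h4, hlt _ _ h5, hlt _ _ h6⟩
    · have h7 := hup _ h6
      have hine : i'.castSucc ≠ (Fin.last n).castSucc := by
        intro he
        rw [he] at h1
        exact absurd (Fin.le_last j') (not_le.2 h1)
      have h8 := hdown _ hine h5
      have h9 : k' < Fin.last n := by
        refine lt_of_le_of_ne (Fin.le_last _) (fun he => ?_)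
        rw [he] at h4
        exact absurd (h4.trans h8) (lt_irrefl _)
      exact h.2 ⟨i', j', k', Fin.last n, h1, h2, h9, hlt _ _ h4, hlt _ _ h8, hlt _ _ h7⟩

theorem eq_succ_of_good {n : ℕ} {x : Fin (n + 1 + 1)} {ρ : Perm (Fin (n + 1))}
    (h : Good (ins x ρ)) (hx : x ≠ Fin.last (n + 1)) (hρ : ρ (Fin.last n) ≠ Fin.last n) :
    x = (ρ (Fin.last n)).succ := by
  set σ := ins x ρ with hσ
  have hl : σ (Fin.last (n + 1)) = x := ins_last _ _
  have hu := ins_val_lt x ρ n (by omega)
  have e1 : (⟨n, by omega⟩ : Fin (n + 1 + 1)) = (Fin.last n).castSucc := rfl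
  have e2 : (⟨n, by omega⟩ : Fin (n + 1)) = Fin.last n := rfl
  rw [e1, e2, ← hσ] at hu
  have hρv : (ρ (Fin.last n) : ℕ) < n := by
    have := (ρ (Fin.last n)).2
    have h2 : (ρ (Fin.last n) : ℕ) ≠ n := fun he => hρ (Fin.ext he)
    omega
  have hxv : (x : ℕ) < n + 1 := by
    have := x.2
    have h2 : (x : ℕ) ≠ n + 1 := fun he => hx (Fin.ext he)
    omega
  have hun : (σ (Fin.last n).castSucc : ℕ) < n + 1 := by
    rw [hu]; split_ifs <;> omega
  -- the position of the largest value
  obtain ⟨p, hp⟩ := σ.surjective (Fin.last (n + 1))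
  have hpn : (p : ℕ) < n := by
    have h1 := p.2
    have h2 : p ≠ Fin.last (n + 1) := fun he => hx (by rw [← hl, ← he, hp, he])
    have h3 : p ≠ (Fin.last n).castSucc := fun he => by
      rw [← he, hp] at hun
      simp at hun
    have h4 : (p : ℕ) ≠ n + 1 := fun he => h2 (Fin.ext he)
    have h5 : (p : ℕ) ≠ n := fun he => h3 (Fin.ext he)
    omega
  have hlast : (Fin.last n).castSucc < Fin.last (n + 1) := by
    rw [Fin.lt_def]; simp
  have hple : p < (Fin.last n).castSucc := by rw [Fin.lt_def]; exact hpn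
  -- `u < x`
  have hux : (σ (Fin.last n).castSucc : ℕ) < x := by
    by_contra hc
    have hne : (σ (Fin.last n).castSucc : ℕ) ≠ x := fun he => by
      have : σ (Fin.last n).castSucc = σ (Fin.last (n + 1)) := Fin.ext (by rw [hl]; exact he)
      exact hlast.ne (σ.injective this)
    apply h.1
    refine ⟨p, (Fin.last n).castSucc, Fin.last (n + 1), hple, hlast, ?_, ?_⟩
    · rw [Fin.lt_def, hl]; omega
    · rw [hp, Fin.lt_def]; simp only [Fin.val_last]; omega
  have hux2 : (σ (Fin.last n).castSucc : ℕ) = ρ (Fin.last n) := by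
    rw [hu] at hux ⊢
    split_ifs at hux ⊢ with hc
    · rfl
    · omega
  apply Fin.ext
  rw [Fin.val_succ]
  by_contra hc
  -- the value `u + 1`
  have hgt : (ρ (Fin.last n) : ℕ) + 1 < x := by omega
  obtain ⟨q, hq⟩ := σ.surjective ⟨(ρ (Fin.last n) : ℕ) + 1, by omega⟩
  have hqv : (σ q : ℕ) = ρ (Fin.last n) + 1 := by rw [hq]
  have hqn : (q : ℕ) < n := by
    have h1 := q.2
    have h4 : (q : ℕ) ≠ n + 1 := fun he => by
      have : q = Fin.last (n + 1) := Fin.ext he
      rw [this, hl] at hqv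
      omega
    have h5 : (q : ℕ) ≠ n := fun he => by
      have : q = (Fin.last n).castSucc := Fin.ext he
      rw [this, hux2] at hqv
      omega
    omega
  have hqle : q < (Fin.last n).castSucc := by rw [Fin.lt_def]; exact hqn
  rcases lt_trichotomy q p with h1 | h1 | h1
  · apply h.2
    refine ⟨q, p, (Fin.last n).castSucc, Fin.last (n + 1), h1, hple, hlast, ?_, ?_, ?_⟩
    · rw [Fin.lt_def]; omega
    · rw [Fin.lt_def, hl]; omega
    · rw [hp, hl, Fin.lt_def]; simp only [Fin.val_last]; exact hxv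
  · rw [h1, hp] at hqv
    simp only [Fin.val_last] at hqv
    omega
  · apply h.1
    refine ⟨p, q, (Fin.last n).castSucc, h1, hqle, ?_, ?_⟩
    · rw [Fin.lt_def]; omega
    · rw [hp, Fin.lt_def, hqv]; simp only [Fin.val_last]; omega

open Classical in
/-- the number of good permutations -/
noncomputable def A (n : ℕ) : ℕ := ∑ ρ : Perm (Fin n), if Good ρ then 1 else 0

open Classical in
/-- the number of good permutations of `n + 1` letters that do not end with the largest one -/
noncomputable def Bn (n : ℕ) : ℕ :=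
  ∑ ρ : Perm (Fin (n + 1)), if Good ρ ∧ ρ (Fin.last n) ≠ Fin.last n then 1 else 0

theorem A_succ (n : ℕ) : A (n + 1) = A n + Bn n := by
  classical
  have h1 : A (n + 1) = (∑ ρ : Perm (Fin (n + 1)),
      if Good ρ ∧ ρ (Fin.last n) = Fin.last n then 1 else 0) + Bn n := by
    unfold A Bn
    rw [← sum_add_distrib]
    refine sum_congr rfl (fun ρ _ => ?_)
    by_cases hG : Good ρ <;> by_cases hl : ρ (Fin.last n) = Fin.last n <;> simp [hG, hl]
  rw [h1]
  congr 1
  rw [sum_ins]
  unfold A
  refine sum_congr rfl (fun τ _ => ?_)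
  rw [sum_eq_single (Fin.last n)]
  · rw [ins_last]
    simp only [and_true, good_ins_last]
  · intro x _ hx
    rw [ins_last, if_neg (fun h => hx h.2)]
  · intro h; exact absurd (mem_univ _) h

theorem Bn_succ (n : ℕ) : Bn (n + 1) = A (n + 1) + Bn n := by
  classical
  have h1 : Bn (n + 1) = ∑ ρ : Perm (Fin (n + 1)), ∑ x : Fin (n + 1 + 1),
      if Good (ins x ρ) ∧ x ≠ Fin.last (n + 1) then 1 else 0 := by
    unfold Bn
    rw [sum_ins]
    refine sum_congr rfl (fun ρ _ => sum_congr rfl (fun x _ => ?_))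
    rw [ins_last]
  have h2 : Bn (n + 1) = (∑ ρ : Perm (Fin (n + 1)), if ρ (Fin.last n) = Fin.last n then
      (∑ x : Fin (n + 1), if Good (ins x.castSucc ρ) then 1 else 0) else 0) + Bn n := by
    rw [h1]
    unfold Bn
    rw [← sum_add_distrib]
    refine sum_congr rfl (fun ρ _ => ?_)
    by_cases hl : ρ (Fin.last n) = Fin.last n
    · rw [if_pos hl, if_neg (fun h => h.2 hl), add_zero, Fin.sum_univ_castSucc]
      rw [if_neg (fun h => h.2 rfl), add_zero]
      refine sum_congr rfl (fun x _ => ?_)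
      have : x.castSucc ≠ Fin.last (n + 1) := (Fin.castSucc_lt_last x).ne
      simp only [this, ne_eq, not_false_eq_true, and_true]
    · rw [if_neg hl, zero_add]
      rw [sum_eq_single (ρ (Fin.last n)).succ]
      · have : (ρ (Fin.last n)).succ ≠ Fin.last (n + 1) := by
          intro he
          apply hl
          rw [← Fin.succ_last] at he
          exact Fin.succ_injective _ he
        simp only [good_succ, this, hl, ne_eq, not_false_eq_true, and_true]
      · intro x _ hx
        rw [if_neg]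
        rintro ⟨h3, h4⟩
        exact hx (eq_succ_of_good h3 h4 hl)
      · intro h; exact absurd (mem_univ _) h
  rw [h2]
  congr 1
  rw [sum_ins]
  have h3 : A (n + 1) = ∑ τ : Perm (Fin n), ∑ x : Fin (n + 1),
      if Good (ins x τ) then 1 else 0 := by
    unfold A; rw [sum_ins]
  rw [h3]
  refine sum_congr rfl (fun τ _ => ?_)
  rw [sum_eq_single (Fin.last n)]
  · rw [ins_last, if_pos rfl]
    refine sum_congr rfl (fun x _ => ?_)
    simp only [good_swap]
  · intro x _ hx
    rw [ins_last, if_neg hx]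
  · intro h; exact absurd (mem_univ _) h

theorem A_Bn (n : ℕ) : A (n + 1) = Nat.fib (2 * n + 1) ∧ Bn (n + 1) = Nat.fib (2 * n + 2) := by
  induction n with
  | zero =>
    have hsub : ∀ a b : Fin (0 + 1), a = b := fun a b => Fin.ext (by omega)
    have h0 : ∀ ρ : Perm (Fin (0 + 1)), Good ρ := by
      intro ρ
      constructor
      · rintro ⟨i, j, k, h1, _⟩
        exact absurd (hsub i j) h1.ne
      · rintro ⟨i, j, k, l, h1, _⟩
        exact absurd (hsub i j) h1.ne
    have hA : A 1 = 1 := by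
      unfold A
      simp [h0]
    have hB : Bn 0 = 0 := by
      unfold Bn
      apply sum_eq_zero
      intro ρ _
      rw [if_neg]
      rintro ⟨_, h⟩
      exact h (hsub _ _)
    refine ⟨by rw [hA]; rfl, ?_⟩
    rw [Bn_succ, hB]
    show A 1 + 0 = _
    rw [hA]; rfl
  | succ n ih =>
    have h1 : A (n + 1 + 1) = Nat.fib (2 * (n + 1) + 1) := by
      rw [A_succ, ih.1, ih.2]
      exact (Nat.fib_add_two (n := 2 * n + 1)).symm
    refine ⟨h1, ?_⟩
    rw [Bn_succ, h1, ih.2, add_comm]
    exact (Nat.fib_add_two (n := 2 * n + 2)).symm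

/-- For every `n ≥ 2` the number of permutations of `n` letters that avoid `321` and the arrow
pattern `(12; 1 → 3)` is the Fibonacci number `F_{2n-1}`; the map `θ` is well-defined and
bijective. -/
theorem result :
    (∀ n : ℕ, 2 ≤ n →
      Nat.card {π : Perm (Fin n) // ¬ C321 π ∧ ¬ CArrow π} = Nat.fib (2 * n - 1)) ∧
    (∀ (n : ℕ) (π : Perm (Fin n)), ∃! σ : Perm (Fin n), IsTheta σ π) := by
  classical
  constructor
  · intro n hn
    obtain ⟨m, rfl⟩ : ∃ m, n = m + 1 := ⟨n - 1, by omega⟩
    rw [show 2 * (m + 1) - 1 = 2 * m + 1 by omega, ← (A_Bn m).1]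
    unfold A
    rw [← card_filter, Nat.card_eq_fintype_card, Fintype.card_subtype]
    apply card_nbij' (fun π => π⁻¹) (fun π => π⁻¹)
    · intro π hπ
      rw [mem_coe, mem_filter] at hπ ⊢
      exact ⟨mem_univ _, (good_iff π).1 hπ.2⟩
    · intro π hπ
      rw [mem_coe, mem_filter] at hπ ⊢
      refine ⟨mem_univ _, (good_iff π⁻¹).2 ?_⟩
      rw [inv_inv]
      exact hπ.2
    · intro π _; exact inv_inv π
    · intro π _; exact inv_inv π
  · intro n π
    refine ⟨hatPerm π, isTheta_hat, fun σ hσ => ?_⟩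
    ext x
    rw [eq_hat hσ x]
    rfl

end Pool.Agent.Results.MP_1ce666_co.ArrowFibonacci
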